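import Pool.Agent.helper33.CVX.Spec

/-!
# Row cvx:CMB (MP_b3a64d_ag): two groups of variables
-/

set_option autoImplicit false

namespace Pool.Agent.CVX

theorem CMB : CMB_stmt := by
  intro ι _ _ n r i i' hn hr hii h1 h2
  have e1 : ∑ k ∈ Finset.univ.erase i, n k = n i' + ∑ k ∈ (Finset.univ.erase i).erase i', n k :=
    (Finset.add_sum_erase _ _ (Finset.mem_erase.2 ⟨hii.symm, Finset.mem_univ _⟩)).symm
  have e2 : ∑ k ∈ Finset.univ.erase i', n k = n i + ∑ k ∈ (Finset.univ.erase i).erase i', n k := by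
    rw [Finset.erase_right_comm]
    exact (Finset.add_sum_erase _ _ (Finset.mem_erase.2 ⟨hii, Finset.mem_univ _⟩)).symm
  rw [e1] at h1
  rw [e2] at h2
  refine ⟨by omega, by omega, fun k => ?_⟩
  by_contra hk
  rw [not_or] at hk
  have h3 : n k ≤ ∑ k ∈ (Finset.univ.erase i).erase i', n k :=
    Finset.single_le_sum (f := n) (fun _ _ => Nat.zero_le _)
      (Finset.mem_erase.2 ⟨hk.2, Finset.mem_erase.2 ⟨hk.1, Finset.mem_univ _⟩⟩)
  have h4 := hn k
  omega

end Pool.Agent.CVX
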